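import Pool.Agent.H247.VE.Stm

/-!
# AT: finitely many attractors, if the other part is volume expanding (helper974)
-/

set_option autoImplicit false

open scoped Manifold ContDiff Topology
open Filter Set Metric MeasureTheory

universe u

namespace Pool.Agent.H974.VE.AT

open Pool.Agent.H247.SD Pool.Agent.H247.VE
open Pool.Agent.R774.OS (CR)
open Pool.Agent.Q182.MC (ChainTo cls)
open Pool.Agent.H728R2.FA (omegaLim FiniteAttractors)

theorem trans_chain {X : Type*} {r : X → X → Prop} {a b : X} (h : Relation.TransGen r a b) :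
    ∃ (m : ℕ) (x : ℕ → X), 1 ≤ m ∧ x 0 = a ∧ x m = b ∧ ∀ i < m, r (x i) (x (i + 1)) := by
  induction h with
  | @single b h =>
    refine ⟨1, fun i => if i = 0 then a else b, le_rfl, by simp, by simp, fun i hi => ?_⟩
    obtain rfl : i = 0 := by omega
    simpa using h
  | @tail b c _ h ih =>
    obtain ⟨m, x, hm, h0, h1, h2⟩ := ih
    refine ⟨m + 1, fun i => if i ≤ m then x i else c, by omega, by simp [h0], by simp,
      fun i hi => ?_⟩
    rcases Nat.lt_or_ge i m with h3 | h3
    · have e1 : (if i ≤ m then x i else c) = x i := if_pos h3.le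
      have e2 : (if i + 1 ≤ m then x (i + 1) else c) = x (i + 1) := if_pos h3
      change r (if i ≤ m then x i else c) (if i + 1 ≤ m then x (i + 1) else c)
      rw [e1, e2]
      exact h2 i h3
    · obtain rfl : i = m := by omega
      have e1 : (if i ≤ i then x i else c) = x i := if_pos le_rfl
      have e2 : (if i + 1 ≤ i then x (i + 1) else c) = c := if_neg (by omega)
      change r (if i ≤ i then x i else c) (if i + 1 ≤ i then x (i + 1) else c)
      rw [e1, e2, h1]
      exact h

theorem mem_CR_of_chain {X : Type u} [MetricSpace X] [CompactSpace X] {F : X → X} {a : X}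
    (h : ChainTo F univ a a) : a ∈ CR F := by
  rw [Pool.Agent.R774.OS.mem_CR]
  intro δ hδ
  rw [Pool.Agent.Q182.MC.chainTo_iff] at h
  obtain ⟨m, x, hm, h0, h1, h2⟩ := trans_chain (h δ hδ)
  exact Pool.Agent.R774.OS.Ch.of hm h0 h1 fun i hi => (h2 i hi).2.2

theorem main : S_AT.{u} := by
  intro X _ _ _ _ μ _ G K hK V hV hKV m lam hlam hexp hnull hfin hcl htr
  -- the set of the points whose forward orbit stays in `V`
  obtain ⟨A, hA⟩ : ∃ A : Set X, A = {x | ∀ n : ℕ, (G : X → X)^[n] x ∈ V} := ⟨_, rfl⟩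
  have hGc : ∀ n : ℕ, Continuous ((G : X → X)^[n]) := fun n => G.continuous.iterate n
  have hAm : MeasurableSet A := by
    have e : A = ⋂ n : ℕ, (G : X → X)^[n] ⁻¹' V := by
      rw [hA]
      ext x
      simp
    rw [e]
    exact MeasurableSet.iInter fun n => (hV.preimage (hGc n)).measurableSet
  have hAV : A ⊆ V := fun x hx => by
    rw [hA] at hx
    exact hx 0
  have hAi : (G : X → X)^[m] '' A ⊆ A := by
    rintro _ ⟨x, hx, rfl⟩
    rw [hA] at hx ⊢
    intro n
    rw [← Function.iterate_add_apply]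
    exact hx (n + m)
  have hA0 : μ A = 0 := by
    have h1 : ENNReal.ofReal lam * μ A ≤ μ A := (hexp A hAV hAm).trans (measure_mono hAi)
    have h2 : μ A ≠ ⊤ := measure_ne_top μ A
    have h3 := ENNReal.toReal_mono h2 h1
    rw [ENNReal.toReal_mul, ENNReal.toReal_ofReal (by linarith)] at h3
    have h4 : 0 ≤ (μ A).toReal := ENNReal.toReal_nonneg
    have h5 : (μ A).toReal = 0 := by nlinarith
    exact ((ENNReal.toReal_eq_zero_iff _).1 h5).resolve_right h2
  have hn : ∀ (n : ℕ) (B : Set X), MeasurableSet B → μ B = 0 →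
      μ ((G : X → X)^[n] ⁻¹' B) = 0 := by
    intro n
    induction n with
    | zero => exact fun B _ h => h
    | succ n ih =>
      intro B hB h
      have e : (G : X → X)^[n + 1] ⁻¹' B = G ⁻¹' ((G : X → X)^[n] ⁻¹' B) := by
        rw [Function.iterate_succ, Set.preimage_comp]
      rw [e]
      exact hnull _ ((hGc n).measurable hB) (ih B hB h)
  have hZ : μ (⋃ n : ℕ, (G : X → X)^[n] ⁻¹' A) = 0 :=
    measure_iUnion_null fun n => hn n A hAm hA0
  -- the limit sets
  have key : ∀ p : X, (∃ a ∈ K, omegaLim G p ⊆ cls (G : X → X) univ a) ∨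
      p ∈ ⋃ n : ℕ, (G : X → X)^[n] ⁻¹' A := by
    intro p
    obtain ⟨a, -, ha⟩ := Pool.Agent.Y318.MH.exists_omegaLim G p univ isClosed_univ
      (fun N => ⟨N, le_rfl, trivial⟩)
    have hch : ∀ b ∈ omegaLim G p, ∀ c ∈ omegaLim G p, ChainTo (G : X → X) univ b c :=
      fun b hb c hc => Pool.Agent.Q182.MC.omega_chain G p (subset_univ _) hb hc
    by_cases haK : a ∈ K
    · exact Or.inl ⟨a, haK, fun b hb => ⟨hch a ha b hb, hch b hb a ha⟩⟩
    · right
      have hsub : omegaLim G p ⊆ V := by
        intro b hb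
        refine hKV ⟨mem_CR_of_chain (hch b hb b hb), fun hbK => haK ?_⟩
        exact hcl b hbK ⟨hch b hb a ha, hch a ha b hb⟩
      have hev : ∃ N : ℕ, ∀ n, N ≤ n → (G : X → X)^[n] p ∈ V := by
        by_contra hcon
        push Not at hcon
        obtain ⟨y, hyV, hyω⟩ := Pool.Agent.Y318.MH.exists_omegaLim G p Vᶜ hV.isClosed_compl
          (fun N => by
            obtain ⟨n, hn, h⟩ := hcon N
            exact ⟨n, hn, h⟩)
        exact hyV (hsub hyω)
      obtain ⟨N, hN⟩ := hev
      refine mem_iUnion.2 ⟨N, ?_⟩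
      change (G : X → X)^[N] p ∈ A
      rw [hA]
      intro n
      rw [← Function.iterate_add_apply]
      exact hN _ (by omega)
  -- the attractors
  classical
  have := hfin.fintype
  let I := {C : {C | ∃ a ∈ K, C = cls (G : X → X) univ a} // 0 < μ {p | omegaLim G p ⊆ C.1}}
  let e := Fintype.equivFin I
  refine ⟨Fintype.card I, fun i => (e.symm i).1.1, fun i => ⟨?_, ?_, (e.symm i).2⟩, ?_⟩
  · obtain ⟨a, -, h2⟩ := (e.symm i).1.2
    beta_reduce
    rw [h2]
    exact Pool.Agent.Q182.MC.cls_inv (K := univ) G (fun _ _ => mem_univ _)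
      (fun _ _ => mem_univ _) a
  · obtain ⟨a, ha, h2⟩ := (e.symm i).1.2
    beta_reduce
    rw [h2]
    exact htr a ha
  · have hsub : {p | ∀ i : Fin (Fintype.card I), ¬ omegaLim G p ⊆ (e.symm i).1.1} ⊆
        (⋃ n : ℕ, (G : X → X)^[n] ⁻¹' A) ∪
        ⋃ C ∈ {C : {C | ∃ a ∈ K, C = cls (G : X → X) univ a} |
          μ {p | omegaLim G p ⊆ C.1} = 0}, {p | omegaLim G p ⊆ C.1} := by
      intro p hp
      rcases key p with ⟨a, ha, h⟩ | h
      · right
        refine mem_iUnion₂.2 ⟨⟨cls (G : X → X) univ a, a, ha, rfl⟩, ?_, h⟩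
        by_contra hne
        have h1 : 0 < μ {p | omegaLim G p ⊆ cls (G : X → X) univ a} := pos_iff_ne_zero.2 hne
        refine hp (e ⟨⟨cls (G : X → X) univ a, a, ha, rfl⟩, h1⟩) ?_
        rw [e.symm_apply_apply]
        exact h
      · exact Or.inl h
    refine measure_mono_null hsub ?_
    rw [measure_union_null_iff]
    refine ⟨hZ, ?_⟩
    rw [measure_biUnion_null_iff (Set.to_countable _)]
    exact fun C hC => hC

end Pool.Agent.H974.VE.AT
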